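import Mathlib
import Pool.Agent.P.MP_cc4673_an.Proofs

open Filter Topology

namespace Pool.Agent.Results.MP_cc4673_an.AtomNotCoordinate

/-- `h` has the L-property on the sequence `z`: every compact `K ⊆ h(ℂⁿ)` contains `h (z k)`
for only finitely many `k`. -/
def HasLProperty {n : ℕ} (h : EuclideanSpace ℂ (Fin n) → ℂ)
    (z : ℕ → EuclideanSpace ℂ (Fin n)) : Prop :=
  ∀ K : Set ℂ, IsCompact K → K ⊆ Set.range h → {k : ℕ | h (z k) ∈ K}.Finite

/-- `(f, g)` is an ordered L-pair. -/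
def IsLPair {n : ℕ} (f g : EuclideanSpace ℂ (Fin n) → ℂ) : Prop :=
  ∀ z : ℕ → EuclideanSpace ℂ (Fin n), Tendsto (fun k => ‖z k‖) atTop atTop →
    HasLProperty f z → HasLProperty g z

/-- `α` is an L-atom among the entire functions on `ℂⁿ`. -/
def IsLAtom {n : ℕ} (α : EuclideanSpace ℂ (Fin n) → ℂ) : Prop :=
  Differentiable ℂ α ∧ (¬ ∃ c : ℂ, ∀ z, α z = c) ∧
    ∀ f : EuclideanSpace ℂ (Fin n) → ℂ, Differentiable ℂ f → IsLPair f α →
      ∃ φ : ℂ → ℂ, DifferentiableOn ℂ φ (Set.range α) ∧ ∀ z, f z = φ (α z)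

/-- On `ℂ²` the function `z₀ z₁` is an L-atom, but it is not the first component of any
holomorphic bijection of `ℂ²`. -/
theorem result :
    IsLAtom (fun z : EuclideanSpace ℂ (Fin 2) => z 0 * z 1) ∧
      ¬ ∃ Φ : EuclideanSpace ℂ (Fin 2) → EuclideanSpace ℂ (Fin 2),
        Differentiable ℂ Φ ∧ Function.Bijective Φ ∧ ∀ z, Φ z 0 = z 0 * z 1 := by
  refine ⟨⟨by fun_prop, ?_, ?_⟩, ?_⟩
  · rintro ⟨c, hc⟩
    have h0 := hc !₂[0, 0]
    have h1 := hc !₂[1, 1]
    simp at h0 h1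
    rw [← h0] at h1
    exact one_ne_zero h1
  · intro f hf hpair
    refine ⟨fun t => f !₂[t, 1], ?_, ?_⟩
    · exact (hf.comp (P.MP_cc4673_an.diff_pair differentiable_id
        (differentiable_const _))).differentiableOn
    · exact P.MP_cc4673_an.factor f hf
        (P.MP_cc4673_an.bounded_on_fibre f _ hf.continuous hpair)
  · rintro ⟨Φ, hΦ, hb, h0⟩
    exact P.MP_cc4673_an.not_component Φ hΦ hb.1 h0

end Pool.Agent.Results.MP_cc4673_an.AtomNotCoordinate
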