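import Mathlib
import Pool.Agent.P.MP_cc4673_an.LA.Stein

open Filter Topology Polynomial

namespace Pool.Agent.Results.MP_cc4673_an.NonComposite

/-- `h` has the L-property on the sequence `z`: every compact `K ⊆ h(ℂⁿ)` contains `h (z k)`
for only finitely many `k`. -/
def HasLProperty {n : ℕ} (h : EuclideanSpace ℂ (Fin n) → ℂ)
    (z : ℕ → EuclideanSpace ℂ (Fin n)) : Prop :=
  ∀ K : Set ℂ, IsCompact K → K ⊆ Set.range h → {k : ℕ | h (z k) ∈ K}.Finite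

/-- `(f, g)` is an ordered L-pair. -/
def IsLPair {n : ℕ} (f g : EuclideanSpace ℂ (Fin n) → ℂ) : Prop :=
  ∀ z : ℕ → EuclideanSpace ℂ (Fin n), Tendsto (fun k => ‖z k‖) atTop atTop →
    HasLProperty f z → HasLProperty g z

/-- `α` is an L-atom among the entire functions on `ℂⁿ`. -/
def IsLAtom {n : ℕ} (α : EuclideanSpace ℂ (Fin n) → ℂ) : Prop :=
  Differentiable ℂ α ∧ (¬ ∃ c : ℂ, ∀ z, α z = c) ∧
    ∀ f : EuclideanSpace ℂ (Fin n) → ℂ, Differentiable ℂ f → IsLPair f α →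
      ∃ φ : ℂ → ℂ, DifferentiableOn ℂ φ (Set.range α) ∧ ∀ z, f z = φ (α z)

/-- Let `α` be entire on `ℂⁿ` and polynomial of bounded degree along a holomorphic family
`s ↦ Ψ (z, s)` of entire curves, one through each point `z`, and not constant on one of them.
Then `α` is an L-atom iff it is not composite. -/
theorem result {n m : ℕ} (α : EuclideanSpace ℂ (Fin n) → ℂ) (hα : Differentiable ℂ α)
    (Ψ : EuclideanSpace ℂ (Fin n) × ℂ → EuclideanSpace ℂ (Fin n)) (hΨ : Differentiable ℂ Ψ)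
    (h0 : ∀ z, Ψ (z, 0) = z)
    (hp : ∀ z, ∃ p : ℂ[X], p.natDegree ≤ m ∧ ∀ s, α (Ψ (z, s)) = p.eval s)
    (hnc : ∃ z s, α (Ψ (z, s)) ≠ α z) :
    List.TFAE
      [IsLAtom α,
       ¬ ∃ (φ : ℂ[X]) (β : EuclideanSpace ℂ (Fin n) → ℂ),
          2 ≤ φ.natDegree ∧ Differentiable ℂ β ∧ ∀ z, α z = φ.eval (β z),
       ∀ (φ : ℂ → ℂ) (β : EuclideanSpace ℂ (Fin n) → ℂ), Differentiable ℂ φ →
          Differentiable ℂ β → (∀ z, α z = φ (β z)) → Function.Injective φ] := by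
  tfae_have 1 → 3 := by
    rintro ⟨-, -, h⟩ φ β hφ hβ e a b hab
    obtain ⟨su, pr⟩ := P.MP_cc4673_an.LA.pair_of_comp hΨ h0 hp hnc hφ.continuous hβ e
    obtain ⟨ψ, -, hψ⟩ := h β hβ fun z _ => pr z
    obtain ⟨x, rfl⟩ := su a
    obtain ⟨y, rfl⟩ := su b
    rw [hψ x, hψ y, e x, e y, hab]
  tfae_have 3 → 2 := by
    rintro h ⟨φ, β, hd, hβ, e⟩
    exact P.MP_cc4673_an.LA.not_inj P.MP_cc4673_an.LA.p_NOD hd (h _ β φ.differentiable hβ e)
  tfae_have 2 → 1 := by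
    intro h
    refine ⟨hα, ?_, fun f hf hpair => ?_⟩
    · rintro ⟨c, hc⟩
      obtain ⟨z, s, hz⟩ := hnc
      exact hz ((hc _).trans (hc _).symm)
    · obtain ⟨φ, β, hβ, e, hψ⟩ := P.MP_cc4673_an.LA.stein' hα hΨ h0 hp hnc hf
        (P.MP_cc4673_an.bounded_on_fibre f α hf.continuous hpair)
      obtain ⟨ψ, h1, h2⟩ := hψ (by by_contra hh; exact h ⟨φ, β, by omega, hβ, e⟩)
      exact ⟨ψ, h1.differentiableOn, h2⟩
  tfae_finish

end Pool.Agent.Results.MP_cc4673_an.NonComposite
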